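import Pool.Agent.MP_09973c_nt.H58.Full

set_option autoImplicit false

namespace Pool.Agent.Results.MP_09973c_nt.Full

open Pool.Agent.MP_09973c_nt.H31

/-- Q1: for coprime positive `p, q` and `a ≠ b`, only finitely many points of the Riemann sphere
are constrained for both `F_a` and `F_b`. -/
theorem result (p q : ℕ) (hp : 0 < p) (hq : 0 < q) (hpq : Nat.Coprime p q) (a b : ℂ) (hab : a ≠ b) :
    {y : OnePoint ℂ | Constrained p q a y ∧ Constrained p q b y}.Finite :=
  Pool.Agent.MP_09973c_nt.H58.full_of_main Pool.Agent.MP_09973c_nt.H58.main_alg p q hp hq hpq a b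
    hab

end Pool.Agent.Results.MP_09973c_nt.Full
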